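import Pool.Agent.Helper89.Vol5.Goals

/-!
# Project V58, packet P7
-/

set_option autoImplicit false

namespace Pool.Agent.Helper17.Vol5.PkP7

open Pool.Agent.Helper86.Poly Pool.Agent.Helper89.Vol5

/-- the first four coordinates -/
noncomputable def pr (v : E 5) : E 4 := !₂[v 0, v 1, v 2, v 3]

lemma pr0 (v : E 5) : pr v 0 = v 0 := rfl
lemma pr1 (v : E 5) : pr v 1 = v 1 := rfl
lemma pr2 (v : E 5) : pr v 2 = v 2 := rfl
lemma pr3 (v : E 5) : pr v 3 = v 3 := rfl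

lemma pr_sub (a b : E 5) : pr (a - b) = pr a - pr b := by
  ext i
  fin_cases i <;> rfl

lemma nsq5 (v : E 5) : ‖v‖ ^ 2 = v 0 ^ 2 + v 1 ^ 2 + v 2 ^ 2 + v 3 ^ 2 + v 4 ^ 2 := by
  rw [EuclideanSpace.norm_sq_eq, Fin.sum_univ_five]
  simp only [Real.norm_eq_abs, sq_abs]

lemma nsq4 (v : E 4) : ‖v‖ ^ 2 = v 0 ^ 2 + v 1 ^ 2 + v 2 ^ 2 + v 3 ^ 2 := by
  rw [EuclideanSpace.norm_sq_eq, Fin.sum_univ_four]
  simp only [Real.norm_eq_abs, sq_abs]

lemma nsq_pr (v : E 5) : ‖pr v‖ ^ 2 + v 4 ^ 2 = ‖v‖ ^ 2 := by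
  rw [nsq5, nsq4, pr0, pr1, pr2, pr3]

lemma dte (e a b c d : E 5) (l : ℝ) (h0 : e 0 = 0) (h1 : e 1 = 0) (h2 : e 2 = 0) (h3 : e 3 = 0)
    (h4 : e 4 = l) :
    dt e a b c d = l * Pool.Agent.Helper89.Vol4.dt (pr a) (pr b) (pr c) (pr d) := by
  unfold dt Pool.Agent.Helper89.Vol4.dt
  rw [h0, h1, h2, h3, h4]
  simp only [pr0, pr1, pr2, pr3]
  simp [Matrix.det_succ_row_zero, Fin.sum_univ_succ, Fin.succAbove]
  left
  ring

theorem thm (h : Pool.Agent.Helper89.Vol4.G_PF) (hA : G_PFA) (hB : G_PFB) (hF : G_FRME) :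
    Pool.Agent.Helper89.Vol5.G_P7 := by
  intro y hy
  obtain ⟨L, ε, hε, hdt, e0, e1, e2, e3, e4⟩ := hF (y 1 - y 0)
  set l := ‖y 1 - y 0‖ with hl
  have hl0 : 0 ≤ l := norm_nonneg _
  have hl1 : l ≤ 1 := by
    have := hy 1 0
    rwa [dist_eq_norm] at this
  set z : Fin 7 → E 4 := fun i => pr (L (y i.succ - y 0)) with hz
  have hz0 : z 0 = 0 := by
    have h1 : ‖z 0‖ ^ 2 = 0 := by
      rw [nsq4]
      show (pr (L (y 1 - y 0))) 0 ^ 2 + (pr (L (y 1 - y 0))) 1 ^ 2 + (pr (L (y 1 - y 0))) 2 ^ 2 +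
        (pr (L (y 1 - y 0))) 3 ^ 2 = 0
      rw [pr0, pr1, pr2, pr3, e0, e1, e2, e3]
      ring
    exact norm_eq_zero.1 (pow_eq_zero_iff two_ne_zero |>.1 h1)
  have hzd : ∀ i j, dist (z i) (z j) ≤ 1 := by
    intro i j
    rw [dist_eq_norm]
    have h1 : z i - z j = pr (L (y i.succ - y j.succ)) := by
      show pr (L (y i.succ - y 0)) - pr (L (y j.succ - y 0)) = _
      rw [← pr_sub, ← map_sub]
      congr 2
      abel
    rw [h1]
    have h2 := nsq_pr (L (y i.succ - y j.succ))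
    rw [LinearIsometryEquiv.norm_map] at h2
    have h3 := hy i.succ j.succ
    rw [dist_eq_norm] at h3
    have h4 : ‖y i.succ - y j.succ‖ ^ 2 ≤ 1 := by
      nlinarith [norm_nonneg (y i.succ - y j.succ)]
    have h5 := norm_nonneg (pr (L (y i.succ - y j.succ)))
    nlinarith [sq_nonneg ((L (y i.succ - y j.succ)) 4)]
  have hzz : ∀ i, dist (z 0) (z i) ^ 2 ≤ 1 - l ^ 2 / 4 := by
    intro i
    rw [hz0, dist_eq_norm, zero_sub, norm_neg]
    show ‖pr (L (y i.succ - y 0))‖ ^ 2 ≤ _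
    have h2 := nsq_pr (L (y i.succ - y 0))
    rw [LinearIsometryEquiv.norm_map] at h2
    have h3 := hy i.succ 0
    rw [dist_eq_norm] at h3
    have h4 : ‖y i.succ - y 0‖ ^ 2 ≤ 1 := by
      nlinarith [norm_nonneg (y i.succ - y 0)]
    have h5 := nsq_pr (L (y i.succ - y 1))
    rw [LinearIsometryEquiv.norm_map] at h5
    have h6 := hy i.succ 1
    rw [dist_eq_norm] at h6
    have h7 : ‖y i.succ - y 1‖ ^ 2 ≤ 1 := by
      nlinarith [norm_nonneg (y i.succ - y 1)]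
    have h8 : L (y i.succ - y 1) = L (y i.succ - y 0) - L (y 1 - y 0) := by
      rw [← map_sub]
      congr 1
      abel
    have h9 : pr (L (y i.succ - y 1)) = pr (L (y i.succ - y 0)) := by
      rw [h8, pr_sub]
      have : pr (L (y 1 - y 0)) = 0 := hz0
      rw [this, sub_zero]
    have h10 : (L (y i.succ - y 1)) 4 = (L (y i.succ - y 0)) 4 - l := by
      rw [h8]
      show (L (y i.succ - y 0)) 4 - (L (y 1 - y 0)) 4 = _
      rw [e4]
    rw [h9, h10] at h5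
    nlinarith [sq_nonneg (2 * (L (y i.succ - y 0)) 4 - l)]
  have key : ∀ a b c d : Fin 7, ε * dt (y 1 - y 0) (y a.succ - y 0) (y b.succ - y 0)
      (y c.succ - y 0) (y d.succ - y 0) =
      l * Pool.Agent.Helper89.Vol4.dt (z a - z 0) (z b - z 0) (z c - z 0) (z d - z 0) := by
    intro a b c d
    rw [← hdt, hz0, sub_zero, sub_zero, sub_zero, sub_zero]
    exact dte _ _ _ _ _ l e0 e1 e2 e3 e4
  have hq : ε * q7 y = l * Pool.Agent.Helper89.Vol4.pf z := by
    have k1 := key 1 2 3 4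
    have k2 := key 1 2 4 5
    have k3 := key 1 2 5 6
    have k4 := key 2 3 4 5
    have k5 := key 2 3 5 6
    have k6 := key 3 4 5 6
    unfold q7 Pool.Agent.Helper89.Vol4.pf
    simp only [mul_add]
    rw [← k1, ← k2, ← k3, ← k4, ← k5, ← k6]
    rfl
  have hqa : |q7 y| = l * |Pool.Agent.Helper89.Vol4.pf z| := by
    have h1 : |ε * q7 y| = |q7 y| := by
      rw [abs_mul]
      rcases hε with rfl | rfl <;> simp
    rw [← h1, hq, abs_mul, abs_of_nonneg hl0]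
  rw [hqa]
  have hp := h z hzd
  have hpn := abs_nonneg (Pool.Agent.Helper89.Vol4.pf z)
  by_cases c1 : l ≤ 0.87
  · calc l * |Pool.Agent.Helper89.Vol4.pf z| ≤ 0.87 * 1.049 :=
          mul_le_mul c1 hp hpn (by norm_num)
      _ ≤ 0.913 := by norm_num
  · rw [not_le] at c1
    by_cases c2 : l ≤ 0.96
    · have h1 : ∀ i, dist (z 0) (z i) ^ 2 ≤ 0.810775 := by
        intro i
        refine le_trans (hzz i) ?_
        norm_num at c1 ⊢
        nlinarith
      have h2 := hB z hzd h1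
      calc l * |Pool.Agent.Helper89.Vol4.pf z| ≤ 0.96 * 0.94 :=
            mul_le_mul c2 h2 hpn (by norm_num)
        _ ≤ 0.913 := by norm_num
    · rw [not_le] at c2
      have h1 : ∀ i, dist (z 0) (z i) ^ 2 ≤ 0.7696 := by
        intro i
        refine le_trans (hzz i) ?_
        norm_num at c2 ⊢
        nlinarith
      have h2 := hA z hzd h1
      calc l * |Pool.Agent.Helper89.Vol4.pf z| ≤ 1 * 0.913 :=
            mul_le_mul hl1 h2 hpn (by norm_num)
        _ = 0.913 := by norm_num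

end Pool.Agent.Helper17.Vol5.PkP7
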